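import Mathlib

set_option autoImplicit false

open Set Cardinal

namespace Pool.Agent.Results.MP_c8ce56_lc.IffNotCH

/-- `f` is eventually macro-uniform for the `ω₁`-ballean of `G`. -/
def EMU {G : Type} [Group G] (f : G → ℝ) : Prop :=
  ∀ F : Set G, F.Countable → ∃ B : Set G, B.Countable ∧
    ∃ M : ℝ, ∀ x ∉ B, ∀ g ∈ F, ∀ h ∈ F, f (g * x) - f (h * x) ≤ M

/-- The `ω₁`-ballean of `G` is emu-bounded. -/
def EmuBounded (G : Type) [Group G] : Prop :=
  ∀ f : G → ℝ, EMU f → ∃ B : Set G, B.Countable ∧ ∃ M : ℝ, ∀ x ∉ B, |f x| ≤ M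

theorem not_of_aleph1 {G : Type} [Group G] (hG : #G = ℵ₁) : ¬ EmuBounded G := by
  classical
  intro hb
  obtain ⟨_, _, ho⟩ := Cardinal.exists_ord_eq_type_lt G
  have hI : ∀ a : G, (Iic a).Countable := by
    intro a
    rw [← Iio_insert]
    refine Countable.insert _ ?_
    rw [← le_aleph0_iff_set_countable, ← Order.lt_succ_iff, succ_aleph0, ← hG]
    exact mk_Iio_lt a ho
  have hunc : ¬ (univ : Set G).Countable := by
    rw [← le_aleph0_iff_set_countable, mk_univ, hG, not_le]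
    exact aleph0_lt_aleph_one
  let K : G → Subgroup G := fun a => Subgroup.closure (Iic a)
  have hK : ∀ a, (K a : Set G).Countable := by
    intro a
    have := (hI a).to_subtype
    have h1 : (K a : Set G) = range (FreeGroup.lift (Subtype.val : Iic a → G)) := by
      rw [← MonoidHom.coe_range, FreeGroup.range_lift_eq_closure, Subtype.range_coe]
    rw [h1]
    exact countable_range _
  have hmono : ∀ a b, a ≤ b → K a ≤ K b := fun a b h =>
    Subgroup.closure_mono (Iic_subset_Iic.2 h)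
  have hself : ∀ a, a ∈ K a := fun a => Subgroup.subset_closure (mem_Iic.2 le_rfl)
  let R : G → Set G := fun x => {a | x ∈ K a}
  have hR : #(range R) = #(ℕ × G) := by
    rw [mk_prod, Cardinal.lift_id, Cardinal.lift_id, mk_nat, hG,
      mul_eq_right aleph0_lt_aleph_one.le aleph0_lt_aleph_one.le aleph0_ne_zero]
    refine le_antisymm (mk_range_le.trans hG.le) ?_
    by_contra h
    rw [not_le, ← succ_aleph0, Order.lt_succ_iff, le_aleph0_iff_set_countable] at h
    apply hunc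
    have h2 : ∀ r : range R, ∃ x, R x = r.1 := fun r => r.2
    choose c hc using h2
    have := h.to_subtype
    refine (countable_iUnion fun r => hK (c r)).mono fun y _ => mem_iUnion.2 ⟨⟨R y, y, rfl⟩, ?_⟩
    have h3 : c ⟨R y, y, rfl⟩ ∈ R (c ⟨R y, y, rfl⟩) := hself _
    rw [hc] at h3
    exact h3
  obtain ⟨e⟩ := Cardinal.eq.1 hR
  let f : G → ℝ := fun x => ((e ⟨R x, x, rfl⟩).1 : ℝ)
  have hf : EMU f := by
    intro F hF
    obtain ⟨b, hb⟩ : ∃ b, ∀ g ∈ F, g ≤ b := by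
      by_contra h
      push Not at h
      refine hunc ((hF.biUnion fun g _ => hI g).mono fun b _ => ?_)
      obtain ⟨g, hg, hbg⟩ := h b
      exact mem_biUnion hg hbg.le
    have key : ∀ x ∉ (K b : Set G), ∀ g ∈ F, R (g * x) = R x := by
      intro x hx g hg
      have hgb : g ∈ K b := hmono _ _ (hb g hg) (hself g)
      ext a
      rcases le_total a b with hab | hab
      · constructor
        · intro h
          exact absurd ((Subgroup.mul_mem_cancel_left _ hgb).1 (hmono _ _ hab h)) hx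
        · intro h
          exact absurd (hmono _ _ hab h) hx
      · exact Subgroup.mul_mem_cancel_left _ (hmono _ _ hab hgb)
    refine ⟨K b, hK b, 0, fun x hx g hg h hh => ?_⟩
    have : (⟨R (g * x), _, rfl⟩ : range R) = ⟨R (h * x), _, rfl⟩ :=
      Subtype.ext ((key x hx g hg).trans (key x hx h hh).symm)
    simp only [f, this, sub_self, le_refl]
  obtain ⟨B, hB, M, hM⟩ := hb f hf
  obtain ⟨n, hn⟩ := exists_nat_gt M
  have : ∃ y : G, y ∉ (fun x => (e ⟨R x, x, rfl⟩).2) '' B := by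
    by_contra h
    push Not at h
    exact hunc ((hB.image _).mono fun y _ => h y)
  obtain ⟨y, hy⟩ := this
  obtain ⟨x, hx⟩ := (e.symm (n, y)).2
  have hx' : e ⟨R x, x, rfl⟩ = (n, y) := by
    rw [← Equiv.eq_symm_apply]; exact Subtype.ext hx
  have hxB : x ∉ B := fun h => hy ⟨x, h, by simp only [hx']⟩
  have := hM x hxB
  simp only [f, hx', Nat.abs_cast] at this
  exact absurd this (not_le.2 hn)

theorem sub1 {G : Type} {s : Set G} (hs : ¬ s.Countable) :
    ∃ t ⊆ s, ¬ t.Countable ∧ #t ≤ ℵ₁ := by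
  rw [← le_aleph0_iff_set_countable, not_le, ← Order.succ_le_iff, succ_aleph0] at hs
  obtain ⟨t, ht, hc⟩ := le_mk_iff_exists_subset.1 hs
  refine ⟨t, ht, ?_, hc.le⟩
  rw [← le_aleph0_iff_set_countable, hc, not_le]
  exact aleph0_lt_aleph_one

theorem pigeon {G I : Type} {Q : Set G} (hQ : ℵ₁ < #Q) (hI : #I ≤ ℵ₁) (A : I → Set G)
    (hA : ∀ q ∈ Q, ∃ i, q ∈ A i) : ∃ i, ¬ (A i ∩ Q).Countable := by
  by_contra h
  push Not at h
  have h1 : #Q ≤ #(⋃ i, A i ∩ Q : Set G) := mk_le_mk_of_subset fun q hq => by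
    obtain ⟨i, hi⟩ := hA q hq
    exact mem_iUnion.2 ⟨i, hi, hq⟩
  have h2 : #(⋃ i, A i ∩ Q : Set G) ≤ ℵ₁ := by
    refine (mk_iUnion_le _).trans ((mul_le_mul' hI (ciSup_le' fun i => ?_)).trans
      (mul_eq_self aleph0_lt_aleph_one.le).le)
    exact (le_aleph0_iff_set_countable.2 (h i)).trans aleph0_lt_aleph_one.le
  exact absurd hQ (not_lt.2 (h1.trans h2))

theorem exout {G : Type} {s t : Set G} (hs : ¬ s.Countable) (ht : t.Countable) :
    ∃ x ∈ s, x ∉ t := by
  by_contra h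
  push Not at h
  exact hs (ht.mono h)

section
variable {G : Type} [Group G] {f : G → ℝ} {M : ℝ}

theorem bad (hM : ∀ g, {x | M < |f (g * x) - f x|}.Countable) (g x : G) :
    {p | M < |f (g * (p * x)) - f (p * x)|}.Countable :=
  (hM g).preimage_of_injOn (f := fun p => p * x) (mul_left_injective x).injOn

theorem comm4 (hM : ∀ g, {x | M < |f (g * x) - f x|}.Countable) {P Q : Set G}
    (hc : ∀ p ∈ P, ∀ q ∈ Q, p * q = q * p) (hQ : ℵ₁ < #Q) (x : G) {P1 P2 : Set G}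
    (h1 : P1 ⊆ P) (h2 : P2 ⊆ P) (u1 : ¬ P1.Countable) (u2 : ¬ P2.Countable) :
    ∃ p1 ∈ P1, ∃ p2 ∈ P2, |f (p1 * x) - f (p2 * x)| ≤ 4 * M := by
  obtain ⟨T1, a1, b1, c1⟩ := sub1 u1
  obtain ⟨T2, a2, b2, c2⟩ := sub1 u2
  obtain ⟨⟨p1, p2⟩, hp⟩ := pigeon (I := T1 × T2) hQ (by
      rw [mk_prod, Cardinal.lift_id, Cardinal.lift_id]
      exact (mul_le_mul' c1 c2).trans (mul_eq_self aleph0_lt_aleph_one.le).le)
    (fun p => {q | |f (q * (p.1.1 * x)) - f (p.1.1 * x)| ≤ M ∧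
      |f (q * (p.2.1 * x)) - f (p.2.1 * x)| ≤ M}) (fun q _ => by
      obtain ⟨p1, k1, l1⟩ := exout b1 (bad hM q x)
      obtain ⟨p2, k2, l2⟩ := exout b2 (bad hM q x)
      exact ⟨(⟨p1, k1⟩, ⟨p2, k2⟩), not_lt.1 l1, not_lt.1 l2⟩)
  obtain ⟨q, ⟨⟨k1, k2⟩, hq⟩, hq'⟩ := exout hp ((bad hM p1.1 x).union (bad hM p2.1 x))
  simp only [mem_union, mem_ofPred_eq, not_or, not_lt] at hq'
  obtain ⟨l1, l2⟩ := hq'
  refine ⟨p1.1, a1 p1.2, p2.1, a2 p2.2, ?_⟩
  simp only at k1 k2
  rw [← mul_assoc, ← hc _ (h1 (a1 p1.2)) _ hq, mul_assoc] at k1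
  rw [← mul_assoc, ← hc _ (h2 (a2 p2.2)) _ hq, mul_assoc] at k2
  rw [abs_le] at k1 k2 l1 l2 ⊢
  constructor <;> linarith [k1.1, k1.2, k2.1, k2.2, l1.1, l1.2, l2.1, l2.2]

theorem val (hM : ∀ g, {x | M < |f (g * x) - f x|}.Countable) {P Q : Set G}
    (hc : ∀ p ∈ P, ∀ q ∈ Q, p * q = q * p) (hQ : ℵ₁ < #Q) (hP : ¬ P.Countable) (x : G) :
    ∃ v : ℝ, {p | p ∈ P ∧ 4 * M + 1 < |f (p * x) - v|}.Countable := by
  obtain ⟨k, hk⟩ : ∃ k : ℤ, ¬ {p | p ∈ P ∧ ⌊f (p * x)⌋ = k}.Countable := by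
    by_contra h
    push Not at h
    exact hP ((countable_iUnion h).mono fun p hp => mem_iUnion.2 ⟨⌊f (p * x)⌋, And.intro hp rfl⟩)
  refine ⟨k, ?_⟩
  by_contra h
  obtain ⟨p1, ⟨-, k1⟩, p2, ⟨-, k2⟩, h3⟩ := comm4 hM hc hQ x (fun p hp => hp.1) (fun p hp => hp.1) h hk
  have l1 := Int.floor_le (f (p2 * x))
  have l2 := Int.lt_floor_add_one (f (p2 * x))
  rw [k2] at l1 l2
  rw [abs_le] at h3
  rcases lt_abs.1 k1 with k | k <;> linarith [h3.1, h3.2]
end

/-- permutations supported on `S` -/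
def H (S : Set ℕ) : Set (Equiv.Perm ℕ) := {p | ∀ n ∉ S, p n = n}

theorem H_card {S : Set ℕ} (hS : S.Infinite) : 𝔠 ≤ #(H S) := by
  classical
  have := hS.to_subtype
  have h1 : #(Equiv.Perm S) = 𝔠 := by
    rw [mk_perm_eq_two_power, mk_eq_aleph0, two_power_aleph0]
  rw [← h1]
  refine mk_le_of_injective (f := fun p => ⟨Equiv.Perm.ofSubtype (p := (· ∈ S)) p,
    fun n hn => Equiv.Perm.ofSubtype_apply_of_not_mem _ hn⟩) fun p q hpq => ?_
  exact Equiv.Perm.ofSubtype_injective (Subtype.mk.inj hpq)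

theorem H_unc {S : Set ℕ} (hS : S.Infinite) : ¬ (H S).Countable := by
  rw [← le_aleph0_iff_set_countable, not_le]
  exact aleph0_lt_continuum.trans_le (H_card hS)

theorem of_not_CH (hc : ℵ₁ < (𝔠 : Cardinal.{0})) : EmuBounded (Equiv.Perm ℕ) := by
  intro f hf
  obtain ⟨M, hM⟩ : ∃ M : ℝ, ∀ g, {x | M < |f (g * x) - f x|}.Countable := by
    by_contra h
    push Not at h
    choose g hg using fun n : ℕ => h n
    obtain ⟨B, hB, M, hM⟩ := hf (insert 1 (range g)) ((countable_range g).insert 1)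
    obtain ⟨n, hn⟩ := exists_nat_gt M
    obtain ⟨x, hx, hxB⟩ := exout (hg n) hB
    have k1 := hM x hxB (g n) (Or.inr ⟨n, rfl⟩) 1 (Or.inl rfl)
    have k2 := hM x hxB 1 (Or.inl rfl) (g n) (Or.inr ⟨n, rfl⟩)
    rw [one_mul] at k1 k2
    have hx' : (n : ℝ) < |f (g n * x) - f x| := hx
    rcases lt_abs.1 hx' with k | k <;> linarith
  have hv : ∀ (S : Set ℕ) (x : Equiv.Perm ℕ), ∃ v : ℝ, S.Infinite → Sᶜ.Infinite →
      {p | p ∈ H S ∧ 4 * M + 1 < |f (p * x) - v|}.Countable := by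
    intro S x
    by_cases h : S.Infinite ∧ Sᶜ.Infinite
    · obtain ⟨v, hv⟩ := val hM (P := H S) (Q := H Sᶜ) (fun p hp q hq => by
        refine Equiv.Perm.Disjoint.commute fun n => ?_
        by_cases hn : n ∈ S
        · exact Or.inr (hq n (not_not.2 hn))
        · exact Or.inl (hp n hn)) (hc.trans_le (H_card h.2)) (H_unc h.1) x
      exact ⟨v, fun _ _ => hv⟩
    · exact ⟨0, fun h1 h2 => absurd ⟨h1, h2⟩ h⟩
  choose v hv using hv
  have hST : ∀ S T : Set ℕ, Sᶜ.Infinite → Tᶜ.Infinite → (S ∩ T).Infinite → ∀ x,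
      |v S x - v T x| ≤ 8 * M + 2 := by
    intro S T hS hT hi x
    obtain ⟨p, hp, hp'⟩ := exout (H_unc hi) ((hv S x (hi.mono inter_subset_left) hS).union
      (hv T x (hi.mono inter_subset_right) hT))
    simp only [mem_union, mem_ofPred_eq, not_or, not_and, not_lt] at hp'
    have k1 := hp'.1 fun n hn => hp n fun h => hn h.1
    have k2 := hp'.2 fun n hn => hp n fun h => hn h.2
    rw [abs_le] at k1 k2 ⊢
    constructor <;> linarith [k1.1, k1.2, k2.1, k2.2]
  let S : Set ℕ := range fun n => 2 * n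
  have hS : S.Infinite := infinite_range_of_injective fun a b h => by simpa using h
  have hS' : Sᶜ.Infinite := infinite_of_injective_forall_mem (f := fun n : ℕ => 2 * n + 1)
    (fun a b h => by simpa using h) fun n ⟨m, hm⟩ => by simp only at hm; omega
  have hg1 : ∀ g : Equiv.Perm ℕ, (g '' S).Infinite := fun g => hS.image g.injective.injOn
  have hg2 : ∀ g : Equiv.Perm ℕ, (g '' S)ᶜ.Infinite := fun g => by
    rw [← image_compl_eq g.bijective]; exact hS'.image g.injective.injOn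
  have hM0 : 0 ≤ 8 * M + 2 := (abs_nonneg _).trans (hST S S hS' hS' (by simpa using hS) 1)
  have hA : ∀ g : Equiv.Perm ℕ, |v S 1 - v (g '' S) g| ≤ 9 * M + 2 := by
    intro g
    have c1 := (hv (g '' S) g (hg1 g) (hg2 g)).preimage_of_injOn
      (f := fun p => g * p * g⁻¹) (fun a _ b _ h => by simpa using h)
    obtain ⟨p, hp, hp'⟩ := exout (H_unc hS) (((hv S 1 hS hS').union c1).union (hM g))
    simp only [mem_union, mem_ofPred_eq, mem_preimage, not_or, not_and, not_lt, mul_one,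
      inv_mul_cancel_right] at hp'
    have k1 := hp'.1.1 hp
    have k2 := hp'.1.2 fun n hn => by
      have : g⁻¹ n ∉ S := fun h => hn ⟨_, h, by simp⟩
      rw [Equiv.Perm.mul_apply, Equiv.Perm.mul_apply, hp _ this]
      simp
    have k3 := hp'.2
    rw [abs_le] at k1 k2 k3 ⊢
    constructor <;> linarith [k1.1, k1.2, k2.1, k2.2, k3.1, k3.2]
  have hB : ∀ g : Equiv.Perm ℕ, |v (g '' S) g - v S g| ≤ 16 * M + 4 := by
    intro g
    by_cases h : (g '' S ∩ S).Infinite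
    · exact (hST _ _ (hg2 g) hS' h g).trans (by linarith)
    · rw [not_infinite] at h
      let T : Set ℕ := (range fun n => 4 * n) ∪ g '' S
      have hT : Tᶜ.Infinite := by
        have h1 : (range fun n : ℕ => 4 * n + 2).Infinite :=
          infinite_range_of_injective fun a b h => by simpa using h
        refine (h1.sdiff h).mono ?_
        rintro _ ⟨⟨n, rfl⟩, hn⟩ (⟨m, hm⟩ | hm)
        · simp only at hm; omega
        · exact hn ⟨hm, 2 * n + 1, by simp only; omega⟩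
      have k1 := hST _ _ (hg2 g) hT ((hg1 g).mono fun n hn => ⟨hn, Or.inr hn⟩) g
      have k2 := hST _ _ hT hS' (infinite_of_injective_forall_mem (f := fun n : ℕ => 4 * n)
        (fun a b h => by simpa using h)
        fun n => ⟨Or.inl ⟨n, rfl⟩, 2 * n, by simp only; omega⟩) g
      rw [abs_le] at k1 k2 ⊢
      constructor <;> linarith [k1.1, k1.2, k2.1, k2.2]
  refine ⟨{x | 30 * M + 7 < |f x - v S 1|}, ?_, |v S 1| + (30 * M + 7), fun x hx => ?_⟩
  · by_contra h
    obtain ⟨D, d1, d2, d3⟩ := sub1 h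
    obtain ⟨a, ha⟩ := pigeon (I := D) (hc.trans_le (H_card hS)) d3
      (fun a => {p | |f (p * a.1) - f a.1| ≤ M}) (fun p _ => by
        obtain ⟨a, k1, k2⟩ := exout d2 (hM p)
        have k3 : |f (p * a) - f a| ≤ M := not_lt.1 k2
        exact ⟨⟨a, k1⟩, k3⟩)
    obtain ⟨p, ⟨k1, k2⟩, k3⟩ := exout ha (hv S a.1 hS hS')
    have k4 : |f (p * a.1) - v S a.1| ≤ 4 * M + 1 := not_lt.1 fun h => k3 ⟨k2, h⟩
    have k5 := hA a.1
    have k6 := hB a.1
    have k7 : 30 * M + 7 < |f a.1 - v S 1| := d1 a.2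
    simp only [mem_ofPred_eq] at k1
    rw [abs_le] at k1 k4 k5 k6
    rcases lt_abs.1 k7 with k | k <;> linarith [k1.1, k1.2, k4.1, k4.2, k5.1, k5.2, k6.1, k6.2]
  · have k : |f x - v S 1| ≤ 30 * M + 7 := not_lt.1 hx
    have := abs_add_le (v S 1) (f x - v S 1)
    rw [add_sub_cancel] at this
    linarith

theorem result : EmuBounded (Equiv.Perm ℕ) ↔ (𝔠 : Cardinal.{0}) ≠ ℵ₁ := by
  constructor
  · intro h hc
    refine not_of_aleph1 ?_ h
    rw [mk_perm_eq_two_power, mk_nat, two_power_aleph0, hc]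
  · intro h
    exact of_not_CH (lt_of_le_of_ne aleph_one_le_continuum (Ne.symm h))

end Pool.Agent.Results.MP_c8ce56_lc.IffNotCH
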